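import Mathlib

/-! Definitions used by the statement of `MP_f5b231_co` `EdgeBound` (moved word for word out of the hand-in). -/

namespace Pool.Agent.Results.MP_f5b231_co.EdgeBound

open Finset

universe u

variable {V : Type u}

/-- `S` is a forcing set of the perfect matching `M` of `G`: it consists of edges of `M`, and
`M` is the only perfect matching of `G` that contains `S`. -/
def IsForcingSet (G : SimpleGraph V) (M : G.Subgraph) (S : Set (Sym2 V)) : Prop :=
  S ⊆ M.edgeSet ∧ ∀ M' : G.Subgraph, M'.IsPerfectMatching → S ⊆ M'.edgeSet → M' = M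

/-- The forcing number `f(G, M)`: the minimum size of a forcing set of `M`. -/
noncomputable def forcingNumber (G : SimpleGraph V) (M : G.Subgraph) : ℕ :=
  sInf {k : ℕ | ∃ S : Set (Sym2 V), IsForcingSet G M S ∧ S.ncard = k}

/-- The maximum forcing number `F(G)`: the maximum of `f(G, M)` over the perfect matchings
`M` of `G`. -/
noncomputable def maxForcingNumber (G : SimpleGraph V) : ℕ :=
  sSup {k : ℕ | ∃ M : G.Subgraph, M.IsPerfectMatching ∧ forcingNumber G M = k}

section Greedy

variable [Fintype V] [DecidableEq V] (G : SimpleGraph V) [DecidableRel G.Adj]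

end Greedy

end Pool.Agent.Results.MP_f5b231_co.EdgeBound
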