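import Mathlib
import Pool.Agent.H77.MV.EdgeBoundDefs

/-!
# Edge count versus maximum forcing number

Every graph `G` on `2n` vertices with a perfect matching satisfies
`e(G) ≥ n² / (n - F(G))`, where `F(G)` is the maximum forcing number.
-/

namespace Pool.Agent.Results.MP_f5b231_co.EdgeBound

open Finset

universe u

variable {V : Type u}

section Greedy

variable [Fintype V] [DecidableEq V] (G : SimpleGraph V) [DecidableRel G.Adj]

/-- On the vertex set `A` the partner function `p` is the only way to match `A` into itself. -/
def Forced (p : V → V) (A : Finset V) : Prop :=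
  ∀ q : V → V, (∀ x ∈ A, q x ∈ A ∧ G.Adj x (q x) ∧ q (q x) = x) → ∀ x ∈ A, q x = p x

theorem greedy (p : V → V) (hp : ∀ v, G.Adj v (p v)) (hpp : ∀ v, p (p v) = v) :
    ∀ (m : ℕ) (U : Finset V), U.card ≤ m → (∀ v ∈ U, p v ∈ U) →
      ∃ A : Finset V, A ⊆ U ∧ (∀ v ∈ A, p v ∈ A) ∧ Forced G p A ∧
        ∑ v ∈ U, (1 : ℝ) / (G.degree v) ≤ A.card := by
  intro m
  induction m with
  | zero =>
    intro U hU _
    have hU0 : U = ∅ := by
      apply Finset.card_eq_zero.mp
      omega
    subst hU0
    refine ⟨∅, by simp, by simp, ?_, by simp⟩
    intro q _ x hx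
    simp at hx
  | succ m ih =>
    intro U hU hUp
    rcases U.eq_empty_or_nonempty with rfl | hne
    · refine ⟨∅, by simp, by simp, ?_, by simp⟩
      intro q _ x hx
      simp at hx
    · obtain ⟨v, hvU, hvmin⟩ := Finset.exists_min_image U (fun w => G.degree w) hne
      -- the removed part
      set N : Finset V := G.neighborFinset v ∪ (G.neighborFinset v).image p with hN
      set R : Finset V := U ∩ N with hR
      have hvN : v ∈ N := by
        rw [hN, Finset.mem_union]
        right
        rw [Finset.mem_image]
        exact ⟨p v, by simpa using hp v, hpp v⟩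
      have hpvN : p v ∈ N := by
        rw [hN, Finset.mem_union]
        left
        simpa using hp v
      have hNp : ∀ w ∈ N, p w ∈ N := by
        intro w hw
        rw [hN, Finset.mem_union] at hw ⊢
        rcases hw with hw | hw
        · right
          exact Finset.mem_image_of_mem p hw
        · left
          rw [Finset.mem_image] at hw
          obtain ⟨y, hy, rfl⟩ := hw
          rw [hpp]
          exact hy
      have hNcard : N.card ≤ 2 * G.degree v := by
        have h1 : N.card ≤ (G.neighborFinset v).card + ((G.neighborFinset v).image p).card :=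
          Finset.card_union_le _ _
        have h2 : ((G.neighborFinset v).image p).card ≤ (G.neighborFinset v).card :=
          Finset.card_image_le
        rw [SimpleGraph.card_neighborFinset_eq_degree] at h1 h2
        omega
      have hdegpos : 0 < G.degree v := by
        rw [← SimpleGraph.card_neighborFinset_eq_degree, Finset.card_pos]
        exact ⟨p v, by simpa using hp v⟩
      have hRsum : ∑ w ∈ R, (1 : ℝ) / (G.degree w) ≤ 2 := by
        have h1 : ∑ w ∈ R, (1 : ℝ) / (G.degree w) ≤ ∑ w ∈ R, (1 : ℝ) / (G.degree v) := by
          apply Finset.sum_le_sum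
          intro w hw
          have hwU : w ∈ U := (Finset.mem_inter.mp hw).1
          have := hvmin w hwU
          apply one_div_le_one_div_of_le
          · exact_mod_cast hdegpos
          · exact_mod_cast this
        have h2 : ∑ w ∈ R, (1 : ℝ) / (G.degree v) = R.card * ((1 : ℝ) / (G.degree v)) := by
          simp
        have h3 : (R.card : ℝ) ≤ 2 * G.degree v := by
          have : R.card ≤ 2 * G.degree v :=
            le_trans (Finset.card_le_card (Finset.inter_subset_right : U ∩ N ⊆ N)) hNcard
          exact_mod_cast this
        have hdp : (0 : ℝ) < G.degree v := by exact_mod_cast hdegpos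
        calc ∑ w ∈ R, (1 : ℝ) / (G.degree w) ≤ R.card * ((1 : ℝ) / (G.degree v)) := by
              rw [← h2]; exact h1
          _ ≤ (2 * G.degree v) * ((1 : ℝ) / (G.degree v)) := by
              apply mul_le_mul_of_nonneg_right h3
              positivity
          _ = 2 := by
              field_simp
      have hcard : (U \ N).card ≤ m := by
        have : (U \ N) ⊂ U := by
          rw [Finset.ssubset_iff_subset_ne]
          refine ⟨Finset.sdiff_subset, ?_⟩
          intro h
          have : v ∈ U \ N := by rw [h]; exact hvU
          exact (Finset.mem_sdiff.mp this).2 hvN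
        have := Finset.card_lt_card this
        omega
      have hclosed : ∀ w ∈ U \ N, p w ∈ U \ N := by
        intro w hw
        rw [Finset.mem_sdiff] at hw ⊢
        refine ⟨hUp w hw.1, fun h => hw.2 ?_⟩
        have := hNp _ h
        rwa [hpp] at this
      obtain ⟨A, hAU, hAp, hAf, hAs⟩ := ih (U \ N) hcard hclosed
      have hvA : v ∉ A := fun h => (Finset.mem_sdiff.mp (hAU h)).2 hvN
      have hpvA : p v ∉ A := fun h => (Finset.mem_sdiff.mp (hAU h)).2 hpvN
      have hpv : p v ≠ v := (hp v).ne'
      refine ⟨insert v (insert (p v) A), ?_, ?_, ?_, ?_⟩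
      · intro w hw
        rw [Finset.mem_insert, Finset.mem_insert] at hw
        rcases hw with rfl | rfl | hw
        · exact hvU
        · exact hUp _ hvU
        · exact (Finset.mem_sdiff.mp (hAU hw)).1
      · intro w hw
        rw [Finset.mem_insert, Finset.mem_insert] at hw ⊢
        rcases hw with rfl | rfl | hw
        · right; left; rfl
        · left; exact hpp v
        · right; right; exact hAp w hw
      · intro q hq
        have hqv : q v = p v := by
          obtain ⟨h1, h2, h3⟩ := hq v (by simp)
          rw [Finset.mem_insert, Finset.mem_insert] at h1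
          rcases h1 with h1 | h1 | h1
          · exact absurd h1 h2.ne'
          · exact h1
          · exfalso
            have := (Finset.mem_sdiff.mp (hAU h1)).2
            apply this
            rw [hN, Finset.mem_union]
            left
            simpa using h2
        have hqpv : q (p v) = v := by
          have := (hq v (by simp)).2.2
          rwa [hqv] at this
        have hA' : ∀ x ∈ A, q x ∈ A ∧ G.Adj x (q x) ∧ q (q x) = x := by
          intro x hx
          obtain ⟨h1, h2, h3⟩ := hq x (by simp [hx])
          refine ⟨?_, h2, h3⟩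
          rw [Finset.mem_insert, Finset.mem_insert] at h1
          rcases h1 with h1 | h1 | h1
          · exfalso
            rw [h1, hqv] at h3
            rw [h3] at hpvA
            exact hpvA hx
          · exfalso
            rw [h1, hqpv] at h3
            rw [h3] at hvA
            exact hvA hx
          · exact h1
        intro x hx
        rw [Finset.mem_insert, Finset.mem_insert] at hx
        rcases hx with rfl | rfl | hx
        · exact hqv
        · rw [hqpv, hpp]
        · exact hAf q hA' x hx
      · have hsplit : ∑ w ∈ U, (1 : ℝ) / (G.degree w)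
            = ∑ w ∈ R, (1 : ℝ) / (G.degree w) + ∑ w ∈ U \ N, (1 : ℝ) / (G.degree w) := by
          rw [hR]
          have := Finset.sum_inter_add_sum_sdiff U N (fun w => (1 : ℝ) / (G.degree w))
          rw [this]
        have hc : (insert v (insert (p v) A)).card = A.card + 2 := by
          rw [Finset.card_insert_of_notMem, Finset.card_insert_of_notMem hpvA]
          rw [Finset.mem_insert]
          rintro (h | h)
          · exact hpv h.symm
          · exact hvA h
        rw [hsplit, hc]
        push_cast
        linarith

end Greedy

/-- The key bound: every perfect matching `M` has a forcing set `S` with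
`2 |S| ≤ |V| - ∑ 1 / deg v`. -/
theorem exists_forcing [Fintype V] [DecidableEq V] (G : SimpleGraph V) [DecidableRel G.Adj]
    (M : G.Subgraph) (hM : M.IsPerfectMatching) :
    ∃ S : Set (Sym2 V), IsForcingSet G M S ∧
      2 * (S.ncard : ℝ) ≤ Fintype.card V - ∑ v, (1 : ℝ) / (G.degree v) := by
  rw [SimpleGraph.Subgraph.isPerfectMatching_iff] at hM
  choose p hp huniq using hM
  have hpp : ∀ v, p (p v) = v := fun v => (huniq (p v) v (hp v).symm).symm
  obtain ⟨A, -, hAp, hAf, hAs⟩ := greedy G p (fun v => (hp v).adj_sub) hpp _ Finset.univ le_rfl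
    (fun v _ => Finset.mem_univ _)
  classical
  set g : V → Sym2 V := fun x => s(x, p x) with hg
  refine ⟨((Aᶜ : Finset V).image g : Finset (Sym2 V)), ⟨?_, ?_⟩, ?_⟩
  · intro e he
    simp only [Finset.coe_image, Set.mem_image, Finset.mem_coe] at he
    obtain ⟨x, -, rfl⟩ := he
    exact hp x
  · intro M' hM' hS
    rw [SimpleGraph.Subgraph.isPerfectMatching_iff] at hM'
    choose q hq hquniq using hM'
    have hqq : ∀ v, q (q v) = v := fun v => (hquniq (q v) v (hq v).symm).symm
    have hout : ∀ x, x ∉ A → q x = p x := by
      intro x hx
      have : g x ∈ M'.edgeSet := by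
        apply hS
        simp only [Finset.coe_image, Set.mem_image, Finset.mem_coe]
        exact ⟨x, by simpa using hx, rfl⟩
      have h2 : M'.Adj x (p x) := this
      exact (hquniq x _ h2).symm
    have hin : ∀ x ∈ A, q x = p x := by
      apply hAf q
      intro x hx
      refine ⟨?_, (hq x).adj_sub, hqq x⟩
      by_contra hcon
      have h1 := hout _ hcon
      rw [hqq] at h1
      apply hcon
      have h2 : p x = q x := by
        have h3 := congrArg p h1
        rwa [hpp] at h3
      rw [← h2]
      exact hAp x hx
    have hall : ∀ x, q x = p x := fun x => by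
      by_cases hx : x ∈ A
      · exact hin x hx
      · exact hout x hx
    have hadj : ∀ a b, M'.Adj a b ↔ M.Adj a b := by
      intro a b
      constructor
      · intro h
        rw [hquniq a b h, hall]
        exact hp a
      · intro h
        rw [huniq a b h, ← hall]
        exact hq a
    ext a b
    · constructor
      · intro _
        exact M.edge_vert (hp a)
      · intro _
        exact M'.edge_vert (hq a)
    · exact hadj a b
  · rw [Set.ncard_coe_finset]
    have h1 : 2 * ((Aᶜ : Finset V).image g).card ≤ (Aᶜ : Finset V).card := by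
      apply Finset.mul_card_image_le_card
      intro e he
      rw [Finset.mem_image] at he
      obtain ⟨x, hx, rfl⟩ := he
      have hpx : p x ∈ (Aᶜ : Finset V) := by
        rw [Finset.mem_compl] at hx ⊢
        intro h
        apply hx
        have := hAp _ h
        rwa [hpp] at this
      have hne : x ≠ p x := ((hp x).adj_sub).ne
      have hsub : ({x, p x} : Finset V) ⊆ {y ∈ (Aᶜ : Finset V) | g y = g x} := by
        intro y hy
        rw [Finset.mem_insert, Finset.mem_singleton] at hy
        rw [Finset.mem_filter]
        rcases hy with rfl | rfl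
        · exact ⟨hx, rfl⟩
        · refine ⟨hpx, ?_⟩
          simp only [hg, hpp]
          exact Sym2.eq_swap
      calc 2 = ({x, p x} : Finset V).card := (Finset.card_pair hne).symm
        _ ≤ _ := Finset.card_le_card hsub
    have h2 : (Aᶜ : Finset V).card = Fintype.card V - A.card := Finset.card_compl A
    have h3 : A.card ≤ Fintype.card V := Finset.card_le_univ A
    have h4 : 2 * (((Aᶜ : Finset V).image g).card : ℝ) ≤ Fintype.card V - A.card := by
      have : 2 * ((Aᶜ : Finset V).image g).card + A.card ≤ Fintype.card V := by omega
      have h5 : ((2 * ((Aᶜ : Finset V).image g).card + A.card : ℕ) : ℝ) ≤ Fintype.card V := by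
        exact_mod_cast this
      push_cast at h5
      linarith
    linarith

/-- **Theorem.** Every (finite simple) graph `G` on `2n` vertices, `n ≥ 1`, that has a perfect
matching satisfies `F(G) < n` and `e(G) ≥ n² / (n - F(G))`. -/
theorem result_proof {V : Type u} [Fintype V] (G : SimpleGraph V) (n : ℕ) (hn : 1 ≤ n)
    (hV : Fintype.card V = 2 * n) (hG : ∃ M : G.Subgraph, M.IsPerfectMatching) :
    maxForcingNumber G < n ∧
      (n : ℝ) ^ 2 / ((n : ℝ) - maxForcingNumber G) ≤ (G.edgeSet.ncard : ℝ) := by
  classical
  have hdeg : ∀ v, 0 < G.degree v := by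
    obtain ⟨M, hM⟩ := hG
    rw [SimpleGraph.Subgraph.isPerfectMatching_iff] at hM
    intro v
    obtain ⟨w, hw, -⟩ := hM v
    rw [← SimpleGraph.card_neighborFinset_eq_degree, Finset.card_pos]
    exact ⟨w, by simpa using hw.adj_sub⟩
  have hecard : (G.edgeSet.ncard : ℝ) = (G.edgeFinset.card : ℝ) := by
    rw [← SimpleGraph.coe_edgeFinset, Set.ncard_coe_finset]
  have hsumdeg : ∑ v, (G.degree v : ℝ) = 2 * (G.edgeFinset.card : ℝ) := by
    have := G.sum_degrees_eq_twice_card_edges
    exact_mod_cast this
  have hcs : ((2 * n : ℝ)) ^ 2 ≤ (∑ v, (1 : ℝ) / (G.degree v)) * (2 * (G.edgeFinset.card : ℝ)) := by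
    rw [← hsumdeg]
    have := Finset.sum_sq_le_sum_mul_sum_of_sq_le_mul (Finset.univ : Finset V)
      (r := fun _ => (1 : ℝ)) (f := fun v => (1 : ℝ) / (G.degree v))
      (g := fun v => (G.degree v : ℝ)) (fun v _ => by positivity) (fun v _ => by positivity)
      (fun v _ => by
        have : (G.degree v : ℝ) ≠ 0 := by
          have := hdeg v
          positivity
        apply le_of_eq
        field_simp)
    simp only [Finset.sum_const, Finset.card_univ, hV, nsmul_eq_mul, mul_one] at this
    push_cast at this
    exact this
  -- every forcing number satisfies the bound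
  have key : ∀ M : G.Subgraph, M.IsPerfectMatching →
      (n : ℝ) ^ 2 ≤ (G.edgeFinset.card : ℝ) * ((n : ℝ) - forcingNumber G M) := by
    intro M hM
    obtain ⟨S, hS, hSc⟩ := exists_forcing G M hM
    have hle : forcingNumber G M ≤ S.ncard := Nat.sInf_le ⟨S, hS, rfl⟩
    have hle' : (forcingNumber G M : ℝ) ≤ S.ncard := by exact_mod_cast hle
    rw [hV] at hSc
    push_cast at hSc
    have h1 : ∑ v, (1 : ℝ) / (G.degree v) ≤ 2 * ((n : ℝ) - forcingNumber G M) := by linarith
    have he : (0 : ℝ) ≤ 2 * (G.edgeFinset.card : ℝ) := by positivity
    have h2 := mul_le_mul_of_nonneg_right h1 he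
    nlinarith
  have hnpos : (0 : ℝ) < n := by exact_mod_cast hn
  have hlt : ∀ M : G.Subgraph, M.IsPerfectMatching → forcingNumber G M < n := by
    intro M hM
    have := key M hM
    by_contra hcon
    push Not at hcon
    have h1 : ((n : ℝ) - forcingNumber G M) ≤ 0 := by
      have : (n : ℝ) ≤ forcingNumber G M := by exact_mod_cast hcon
      linarith
    have h2 : (G.edgeFinset.card : ℝ) * ((n : ℝ) - forcingNumber G M) ≤ 0 :=
      mul_nonpos_of_nonneg_of_nonpos (by positivity) h1
    have h3 : (0 : ℝ) < (n : ℝ) ^ 2 := by positivity
    linarith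
  -- the maximum is attained
  have hne : {k : ℕ | ∃ M : G.Subgraph, M.IsPerfectMatching ∧ forcingNumber G M = k}.Nonempty := by
    obtain ⟨M, hM⟩ := hG
    exact ⟨_, M, hM, rfl⟩
  have hbdd : BddAbove {k : ℕ | ∃ M : G.Subgraph, M.IsPerfectMatching ∧ forcingNumber G M = k} := by
    refine ⟨n, ?_⟩
    rintro k ⟨M, hM, rfl⟩
    exact (hlt M hM).le
  obtain ⟨M, hM, hMF⟩ := Nat.sSup_mem hne hbdd
  have hF : maxForcingNumber G = forcingNumber G M := hMF.symm
  rw [hF]
  refine ⟨hlt M hM, ?_⟩
  have hpos : (0 : ℝ) < (n : ℝ) - forcingNumber G M := by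
    have : (forcingNumber G M : ℝ) < n := by exact_mod_cast hlt M hM
    linarith
  rw [div_le_iff₀ hpos, hecard]
  exact key M hM

end Pool.Agent.Results.MP_f5b231_co.EdgeBound
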