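import Mathlib

/-! Definitions used by the statement of `MP_fcbbae_co` `EvasiveCUR` (moved word for word out of the hand-in). -/

set_option autoImplicit false

namespace Pool.Agent.Results.MP_fcbbae_co.EvasiveCUR

/-- The deletion of a vertex `v` from a family of finite sets. -/
def deletion {V : Type} (Δ : Set (Finset V)) (v : V) : Set (Finset V) :=
  {τ | τ ∈ Δ ∧ v ∉ τ}

/-- The link of a vertex `v` in a family of finite sets. -/
def link {V : Type} [DecidableEq V] (Δ : Set (Finset V)) (v : V) : Set (Finset V) :=
  {τ | v ∉ τ ∧ insert v τ ∈ Δ}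

/-- Non-evasive complexes: a single point is non-evasive, and a complex with at least two
vertices is non-evasive if it has a vertex whose deletion and link are both non-evasive. -/
inductive NonEvasive {V : Type} [DecidableEq V] : Set (Finset V) → Prop
  | point (v : V) : NonEvasive {∅, {v}}
  | step (Δ : Set (Finset V)) (v w : V) (hvw : v ≠ w) (hv : {v} ∈ Δ) (hw : {w} ∈ Δ)
      (hdel : NonEvasive (deletion Δ v)) (hlink : NonEvasive (link Δ v)) : NonEvasive Δ

/-- The nerve of a family of subsets of `ℝ^d` (the empty intersection is the whole space). -/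
def nerve {n d : ℕ} (U : Fin n → Set (EuclideanSpace ℝ (Fin d))) : Set (Finset (Fin n)) :=
  {σ | (⋂ i ∈ σ, U i).Nonempty}

/-- `Δ` is `d`-convex union representable: it is the nerve of convex open subsets of `ℝ^d`, not
all empty, whose union is convex. -/
def ConvexUnionRepresentable (d : ℕ) {n : ℕ} (Δ : Set (Finset (Fin n))) : Prop :=
  ∃ U : Fin n → Set (EuclideanSpace ℝ (Fin d)),
    (∀ i, IsOpen (U i)) ∧ (∀ i, Convex ℝ (U i)) ∧ (∃ i, (U i).Nonempty) ∧
      Convex ℝ (⋃ i, U i) ∧ nerve U = Δ

section Euler

variable {V : Type} [Fintype V] [DecidableEq V]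

end Euler

end Pool.Agent.Results.MP_fcbbae_co.EvasiveCUR
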