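import Mathlib
import Pool.Agent.H77.MV.EvasiveCURDefs

set_option autoImplicit false

namespace Pool.Agent.Results.MP_fcbbae_co.EvasiveCUR

/-! ### The reduced Euler characteristic vanishes on non-evasive complexes -/

section Euler

variable {V : Type} [Fintype V] [DecidableEq V]

/-- (minus) the reduced Euler characteristic -/
noncomputable def chi (Δ : Set (Finset V)) : ℤ :=
  ∑ σ : Finset V, Set.indicator Δ (fun σ => (-1) ^ σ.card) σ

lemma chi_point (v : V) : chi ({∅, {v}} : Set (Finset V)) = 0 := by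
  classical
  unfold chi
  have h : ∀ σ : Finset V, Set.indicator ({∅, {v}} : Set (Finset V))
      (fun σ => ((-1 : ℤ)) ^ σ.card) σ =
      (if σ = ∅ then 1 else 0) + (if σ = {v} then -1 else 0) := by
    intro σ
    by_cases h1 : σ = ∅
    · subst h1
      have : ¬ ((∅ : Finset V) = {v}) := fun h => by simpa using congrArg Finset.card h
      simp [this]
    · by_cases h2 : σ = {v}
      · subst h2; simp
      · simp [h1, h2]
  simp only [h, Finset.sum_add_distrib]
  simp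

lemma chi_step (Δ : Set (Finset V)) (v : V) :
    chi Δ = chi (deletion Δ v) - chi (link Δ v) := by
  classical
  unfold chi
  have h : ∀ σ : Finset V, Set.indicator Δ (fun σ => ((-1 : ℤ)) ^ σ.card) σ =
      Set.indicator (deletion Δ v) (fun σ => ((-1 : ℤ)) ^ σ.card) σ +
      (if (v ∈ σ ∧ σ ∈ Δ) then ((-1 : ℤ)) ^ σ.card else 0) := by
    intro σ
    by_cases h1 : σ ∈ Δ <;> by_cases h2 : v ∈ σ <;> simp [deletion, h1, h2]
  have h2 : ∀ σ : Finset V, Set.indicator (link Δ v) (fun σ => ((-1 : ℤ)) ^ σ.card) σ =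
      -(if σ ∈ link Δ v then ((-1 : ℤ)) ^ (σ.card + 1) else 0) := by
    intro σ
    by_cases h1 : σ ∈ link Δ v
    · simp [h1, pow_succ]
    · simp [h1]
  simp only [h, h2, Finset.sum_add_distrib, Finset.sum_neg_distrib, sub_neg_eq_add]
  congr 1
  rw [← Finset.sum_filter, ← Finset.sum_filter]
  symm
  refine Finset.sum_bij' (fun σ _ => insert v σ) (fun σ _ => σ.erase v) ?_ ?_ ?_ ?_ ?_
  · intro σ hσ
    simp only [Finset.mem_filter, Finset.mem_univ, true_and] at hσ ⊢
    exact ⟨Finset.mem_insert_self _ _, hσ.2⟩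
  · intro σ hσ
    simp only [Finset.mem_filter, Finset.mem_univ, true_and] at hσ ⊢
    refine ⟨Finset.notMem_erase _ _, ?_⟩
    rw [Finset.insert_erase hσ.1]
    exact hσ.2
  · intro σ hσ
    simp only [Finset.mem_filter, Finset.mem_univ, true_and] at hσ
    exact Finset.erase_insert hσ.1
  · intro σ hσ
    simp only [Finset.mem_filter, Finset.mem_univ, true_and] at hσ
    exact Finset.insert_erase hσ.1
  · intro σ hσ
    simp only [Finset.mem_filter, Finset.mem_univ, true_and] at hσ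
    rw [Finset.card_insert_of_notMem hσ.1]

lemma NonEvasive.chi_eq_zero {Δ : Set (Finset V)} (h : NonEvasive Δ) : chi Δ = 0 := by
  induction h with
  | point v => exact chi_point v
  | step Δ v w hvw hv hw hdel hlink ih1 ih2 => rw [chi_step Δ v, ih1, ih2]; rfl

end Euler

/-! ### The complex: 7 vertices and 12 triangles -/

/-- The twelve facets. -/
def facets : List (Finset (Fin 7)) :=
  [{0, 1, 5}, {0, 2, 4}, {0, 4, 5}, {0, 4, 6}, {0, 5, 6}, {1, 2, 3}, {1, 3, 5}, {1, 3, 6},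
    {1, 5, 6}, {2, 3, 4}, {2, 3, 6}, {2, 4, 6}]

/-- The minimal non-faces. -/
def nonfaces : List (Finset (Fin 7)) :=
  [{0, 3}, {1, 4}, {2, 5}, {0, 1, 2}, {0, 1, 6}, {0, 2, 6}, {1, 2, 6}, {3, 4, 5}, {3, 4, 6},
    {3, 5, 6}, {4, 5, 6}]

/-- The complex, as a finite set of faces. -/
def cplx : Finset (Finset (Fin 7)) :=
  Finset.univ.filter (fun σ => ∃ F ∈ facets, σ ⊆ F)

lemma mem_cplx (σ : Finset (Fin 7)) : σ ∈ cplx ↔ ∃ F ∈ facets, σ ⊆ F := by
  simp [cplx]

lemma exists_nonface : ∀ σ : Finset (Fin 7), σ ∉ cplx → ∃ M ∈ nonfaces, M ⊆ σ := by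
  decide +kernel

/-- computable version of `chi` of a link -/
def chiLink (v : Fin 7) : ℤ :=
  ∑ σ : Finset (Fin 7), if v ∉ σ ∧ insert v σ ∈ cplx then (-1) ^ σ.card else 0

lemma chiLink_ne : ∀ v : Fin 7, chiLink v ≠ 0 := by
  decide +kernel

lemma chi_link_eq (v : Fin 7) : chi (link (↑cplx : Set (Finset (Fin 7))) v) = chiLink v := by
  classical
  unfold chi chiLink link
  apply Finset.sum_congr rfl
  intro σ _
  by_cases h : v ∉ σ ∧ insert v σ ∈ cplx
  · rw [if_pos h, Set.indicator_of_mem]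
    simpa using h
  · rw [if_neg h, Set.indicator_of_notMem]
    simpa using h

lemma not_nonEvasive : ¬ NonEvasive (↑cplx : Set (Finset (Fin 7))) := by
  have hvert : ∀ v : Fin 7, ({v} : Finset (Fin 7)) ∈ cplx := by decide +kernel
  intro h
  generalize hD : (↑cplx : Set (Finset (Fin 7))) = D at h
  cases h with
  | point v =>
    have h1 : ({v + 1} : Finset (Fin 7)) ∈ ({∅, {v}} : Set (Finset (Fin 7))) := by
      rw [← hD]; exact Finset.mem_coe.2 (hvert (v + 1))
    simp at h1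
  | step _ v w hvw hv hw hdel hlink =>
    have := hlink.chi_eq_zero
    rw [← hD, chi_link_eq] at this
    exact chiLink_ne v this

/-! ### The planar representation

In coordinates `x = p 0`, `y = p 1`, `z = - x - y` the union is the open triangle
`x, y, z < 10`. -/

/-- The open convex polygon given by a list of strict linear inequalities
`a * x + b * y + c * z < e`. -/
def poly (L : List (ℝ × ℝ × ℝ × ℝ)) : Set (EuclideanSpace ℝ (Fin 2)) :=
  {p | ∀ h ∈ L, h.1 * p 0 + h.2.1 * p 1 + h.2.2.1 * (-p 0 - p 1) < h.2.2.2}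

lemma poly_nil : poly [] = Set.univ := by simp [poly]

lemma poly_cons (h : ℝ × ℝ × ℝ × ℝ) (L : List (ℝ × ℝ × ℝ × ℝ)) :
    poly (h :: L) = {p : EuclideanSpace ℝ (Fin 2) |
      h.1 * p 0 + h.2.1 * p 1 + h.2.2.1 * (-p 0 - p 1) < h.2.2.2} ∩ poly L := by
  ext p
  simp [poly]

lemma mem_poly_nil (p : EuclideanSpace ℝ (Fin 2)) : p ∈ poly [] ↔ True := by simp [poly]

lemma mem_poly_cons (p : EuclideanSpace ℝ (Fin 2)) (h : ℝ × ℝ × ℝ × ℝ)
    (L : List (ℝ × ℝ × ℝ × ℝ)) :
    p ∈ poly (h :: L) ↔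
      h.1 * p 0 + h.2.1 * p 1 + h.2.2.1 * (-p 0 - p 1) < h.2.2.2 ∧ p ∈ poly L := by
  rw [poly_cons]
  rfl

lemma isOpen_poly (L : List (ℝ × ℝ × ℝ × ℝ)) : IsOpen (poly L) := by
  induction L with
  | nil => rw [poly_nil]; exact isOpen_univ
  | cons h L ih =>
    rw [poly_cons]
    exact (isOpen_lt (by fun_prop) continuous_const).inter ih

lemma convex_poly (L : List (ℝ × ℝ × ℝ × ℝ)) : Convex ℝ (poly L) := by
  induction L with
  | nil => rw [poly_nil]; exact convex_univ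
  | cons h L ih =>
    rw [poly_cons]
    refine Convex.inter ?_ ih
    intro p hp q hq a b ha hb hab
    simp only [Set.mem_ofPred_eq, PiLp.add_apply, PiLp.smul_apply, smul_eq_mul] at *
    have hb' : b = 1 - a := by linarith
    subst hb'
    rcases ha.eq_or_lt with h0 | h0
    · subst h0
      nlinarith
    · nlinarith [mul_lt_mul_of_pos_left hp h0, mul_le_mul_of_nonneg_left hq.le hb]

/-- The inequalities of the seven sets: three sets reaching the boundary of the big open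
triangle, three small triangles and a central triangle. -/
def ineqs : Fin 7 → List (ℝ × ℝ × ℝ × ℝ) :=
  ![[(1, 0, 0, 10), (0, 1, 0, 10), (0, 0, 1, 10), (-6, 1, -1, -24), (-6, -1, 1, -24)],
    [(1, 0, 0, 10), (0, 1, 0, 10), (0, 0, 1, 10), (1, -6, -1, -24), (-1, -6, 1, -24)],
    [(1, 0, 0, 10), (0, 1, 0, 10), (0, 0, 1, 10), (1, -1, -6, -24), (-1, 1, -6, -24)],
    [(1, 0, 0, -4), (0, 1, 0, 9), (0, 0, 1, 9)],
    [(1, 0, 0, 9), (0, 1, 0, -4), (0, 0, 1, 9)],
    [(1, 0, 0, 9), (0, 1, 0, 9), (0, 0, 1, -4)],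
    [(1, 0, 0, 6), (0, 1, 0, 6), (0, 0, 1, 6)]]

/-- The seven open convex sets. -/
def sets (i : Fin 7) : Set (EuclideanSpace ℝ (Fin 2)) := poly (ineqs i)

lemma cover_aux (x y z : ℝ) (h : x + y + z = 0) (hxy : y ≤ x) (hyz : z ≤ y) :
    (x < 6 ∧ y < 6 ∧ z < 6) ∨ (24 < 6 * x - (y - z) ∧ 24 < 6 * x + (y - z)) ∨
      (z < -4 ∧ x < 9 ∧ y < 9) := by
  by_cases h6 : x < 6
  · left; exact ⟨h6, by linarith, by linarith⟩
  · right
    push Not at h6
    by_cases h24 : 24 < 6 * x - (y - z)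
    · left; exact ⟨h24, by linarith⟩
    · right
      push Not at h24
      exact ⟨by linarith, by linarith, by linarith⟩

lemma union_sets : (⋃ i, sets i) = poly [(1, 0, 0, 10), (0, 1, 0, 10), (0, 0, 1, 10)] := by
  ext p
  simp only [Set.mem_iUnion]
  constructor
  · rintro ⟨i, hi⟩
    fin_cases i <;>
      simp [sets, ineqs, poly] at hi ⊢ <;>
      (try (obtain ⟨h1, h2, h3, h4, h5⟩ := hi)) <;>
      (try (obtain ⟨h1, h2, h3⟩ := hi)) <;>
      refine ⟨?_, ?_, ?_⟩ <;> linarith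
  · intro hp
    simp [poly] at hp
    obtain ⟨h1, h2, h3⟩ := hp
    generalize hx : p 0 = x at h1 h2 h3
    generalize hy : p 1 = y at h1 h2 h3
    obtain ⟨z, hz⟩ : ∃ z : ℝ, z = -x - y := ⟨_, rfl⟩
    have hsum : x + y + z = 0 := by linarith
    rcases le_total x y with hxy | hxy <;> rcases le_total y z with hyz | hyz <;>
      rcases le_total x z with hxz | hxz
    · -- x ≤ y ≤ z
      rcases cover_aux z y x (by linarith) hyz hxy with h | h | h
      · exact ⟨6, by simp [sets, ineqs, poly, hx, hy]; refine ⟨?_, ?_, ?_⟩ <;> linarith⟩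
      · exact ⟨2, by simp [sets, ineqs, poly, hx, hy]; refine ⟨?_, ?_, ?_, ?_, ?_⟩ <;> linarith⟩
      · exact ⟨3, by simp [sets, ineqs, poly, hx, hy]; refine ⟨?_, ?_, ?_⟩ <;> linarith⟩
    · -- x ≤ y ≤ z ≤ x
      rcases cover_aux z y x (by linarith) hyz hxy with h | h | h
      · exact ⟨6, by simp [sets, ineqs, poly, hx, hy]; refine ⟨?_, ?_, ?_⟩ <;> linarith⟩
      · exact ⟨2, by simp [sets, ineqs, poly, hx, hy]; refine ⟨?_, ?_, ?_, ?_, ?_⟩ <;> linarith⟩
      · exact ⟨3, by simp [sets, ineqs, poly, hx, hy]; refine ⟨?_, ?_, ?_⟩ <;> linarith⟩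
    · -- x ≤ z ≤ y
      rcases cover_aux y z x (by linarith) hyz hxz with h | h | h
      · exact ⟨6, by simp [sets, ineqs, poly, hx, hy]; refine ⟨?_, ?_, ?_⟩ <;> linarith⟩
      · exact ⟨1, by simp [sets, ineqs, poly, hx, hy]; refine ⟨?_, ?_, ?_, ?_, ?_⟩ <;> linarith⟩
      · exact ⟨3, by simp [sets, ineqs, poly, hx, hy]; refine ⟨?_, ?_, ?_⟩ <;> linarith⟩
    · -- z ≤ x ≤ y
      rcases cover_aux y x z (by linarith) hxy hxz with h | h | h
      · exact ⟨6, by simp [sets, ineqs, poly, hx, hy]; refine ⟨?_, ?_, ?_⟩ <;> linarith⟩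
      · exact ⟨1, by simp [sets, ineqs, poly, hx, hy]; refine ⟨?_, ?_, ?_, ?_, ?_⟩ <;> linarith⟩
      · exact ⟨5, by simp [sets, ineqs, poly, hx, hy]; refine ⟨?_, ?_, ?_⟩ <;> linarith⟩
    · -- y ≤ x ≤ z
      rcases cover_aux z x y (by linarith) hxz hxy with h | h | h
      · exact ⟨6, by simp [sets, ineqs, poly, hx, hy]; refine ⟨?_, ?_, ?_⟩ <;> linarith⟩
      · exact ⟨2, by simp [sets, ineqs, poly, hx, hy]; refine ⟨?_, ?_, ?_, ?_, ?_⟩ <;> linarith⟩
      · exact ⟨4, by simp [sets, ineqs, poly, hx, hy]; refine ⟨?_, ?_, ?_⟩ <;> linarith⟩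
    · -- y ≤ z ≤ x
      rcases cover_aux x z y (by linarith) hxz hyz with h | h | h
      · exact ⟨6, by simp [sets, ineqs, poly, hx, hy]; refine ⟨?_, ?_, ?_⟩ <;> linarith⟩
      · exact ⟨0, by simp [sets, ineqs, poly, hx, hy]; refine ⟨?_, ?_, ?_, ?_, ?_⟩ <;> linarith⟩
      · exact ⟨4, by simp [sets, ineqs, poly, hx, hy]; refine ⟨?_, ?_, ?_⟩ <;> linarith⟩
    · -- z ≤ y ≤ x, x ≤ z
      rcases cover_aux x y z (by linarith) hxy hyz with h | h | h
      · exact ⟨6, by simp [sets, ineqs, poly, hx, hy]; refine ⟨?_, ?_, ?_⟩ <;> linarith⟩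
      · exact ⟨0, by simp [sets, ineqs, poly, hx, hy]; refine ⟨?_, ?_, ?_, ?_, ?_⟩ <;> linarith⟩
      · exact ⟨5, by simp [sets, ineqs, poly, hx, hy]; refine ⟨?_, ?_, ?_⟩ <;> linarith⟩
    · -- z ≤ y ≤ x
      rcases cover_aux x y z (by linarith) hxy hyz with h | h | h
      · exact ⟨6, by simp [sets, ineqs, poly, hx, hy]; refine ⟨?_, ?_, ?_⟩ <;> linarith⟩
      · exact ⟨0, by simp [sets, ineqs, poly, hx, hy]; refine ⟨?_, ?_, ?_, ?_, ?_⟩ <;> linarith⟩
      · exact ⟨5, by simp [sets, ineqs, poly, hx, hy]; refine ⟨?_, ?_, ?_⟩ <;> linarith⟩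

lemma nonface_empty : ∀ M ∈ nonfaces, ¬ (⋂ i ∈ M, sets i).Nonempty := by
  intro M hM
  rintro ⟨p, hp⟩
  simp only [Set.mem_iInter] at hp
  simp only [nonfaces, List.mem_cons, List.not_mem_nil, or_false] at hM
  rcases hM with h | h | h | h | h | h | h | h | h | h | h <;> subst h <;>
    simp [sets, ineqs, mem_poly_cons, mem_poly_nil] at hp <;>
    (obtain ⟨h1, h2⟩ := hp) <;> linarith

lemma facet_nonempty : ∀ F ∈ facets, (⋂ i ∈ F, sets i).Nonempty := by
  intro F hF
  simp only [facets, List.mem_cons, List.not_mem_nil, or_false] at hF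
  rcases hF with h | h | h | h | h | h | h | h | h | h | h | h <;> subst h
  · exact ⟨!₂[17 / 2, 17 / 2], by simp [sets, ineqs, mem_poly_cons, mem_poly_nil]; norm_num⟩
  · exact ⟨!₂[17 / 2, -17], by simp [sets, ineqs, mem_poly_cons, mem_poly_nil]; norm_num⟩
  · exact ⟨!₂[17 / 2, -17 / 4], by simp [sets, ineqs, mem_poly_cons, mem_poly_nil]; norm_num⟩
  · exact ⟨!₂[5, -5], by simp [sets, ineqs, mem_poly_cons, mem_poly_nil]; norm_num⟩
  · exact ⟨!₂[5, 0], by simp [sets, ineqs, mem_poly_cons, mem_poly_nil]; norm_num⟩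
  · exact ⟨!₂[-17, 17 / 2], by simp [sets, ineqs, mem_poly_cons, mem_poly_nil]; norm_num⟩
  · exact ⟨!₂[-9 / 2, 35 / 4], by simp [sets, ineqs, mem_poly_cons, mem_poly_nil]; norm_num⟩
  · exact ⟨!₂[-5, 5], by simp [sets, ineqs, mem_poly_cons, mem_poly_nil]; norm_num⟩
  · exact ⟨!₂[0, 5], by simp [sets, ineqs, mem_poly_cons, mem_poly_nil]; norm_num⟩
  · exact ⟨!₂[-9 / 2, -17 / 4], by simp [sets, ineqs, mem_poly_cons, mem_poly_nil]; norm_num⟩
  · exact ⟨!₂[-5, 0], by simp [sets, ineqs, mem_poly_cons, mem_poly_nil]; norm_num⟩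
  · exact ⟨!₂[0, -5], by simp [sets, ineqs, mem_poly_cons, mem_poly_nil]; norm_num⟩

lemma nerve_sets : nerve sets = (↑cplx : Set (Finset (Fin 7))) := by
  ext σ
  simp only [nerve, Set.mem_ofPred_eq, Finset.mem_coe]
  constructor
  · intro h
    by_contra hσ
    obtain ⟨M, hM, hMσ⟩ := exists_nonface σ hσ
    refine nonface_empty M hM (h.mono ?_)
    exact Set.biInter_subset_biInter_left (fun i hi => hMσ hi)
  · intro h
    obtain ⟨F, hF, hσF⟩ := (mem_cplx σ).1 h
    exact (facet_nonempty F hF).mono (Set.biInter_subset_biInter_left (fun i hi => hσF hi))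

/-- There is a simplicial complex on `7` vertices which is `2`-convex union representable and
is not non-evasive. -/
theorem result_proof : ∃ Δ : Set (Finset (Fin 7)),
    ConvexUnionRepresentable 2 Δ ∧ (∀ v, {v} ∈ Δ) ∧ ¬ NonEvasive Δ := by
  refine ⟨↑cplx, ⟨sets, fun i => isOpen_poly _, fun i => convex_poly _, ?_, ?_, nerve_sets⟩, ?_,
    not_nonEvasive⟩
  · refine ⟨6, (!₂[0, 0] : EuclideanSpace ℝ (Fin 2)), ?_⟩
    simp [sets, ineqs, poly]
  · rw [union_sets]
    exact convex_poly _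
  · have hvert : ∀ v : Fin 7, ({v} : Finset (Fin 7)) ∈ cplx := by decide +kernel
    exact fun v => Finset.mem_coe.2 (hvert v)

end Pool.Agent.Results.MP_fcbbae_co.EvasiveCUR
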