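import Mathlib
import Pool.Agent.H68.C15Flag

/-! Definitions used by the statement of `MP_6f559f_gt` `ProjConst` (moved word for word out of the hand-in). -/

open MeasureTheory Set
open scoped ENNReal RealInnerProductSpace

namespace Pool.Agent.Results.MP_6f559f_gt.ProjConst

open Pool.Agent.H68.Cap

/-- The subspace `S₀ = {x : x_{i+1} = ... = x_n = 0}` of `ℝⁿ`, of dimension `i` when `i ≤ n`. -/
def coordSub (n i : ℕ) : Submodule ℝ (EuclideanSpace ℝ (Fin n)) where
  carrier := {x | ∀ j : Fin n, i ≤ (j : ℕ) → x j = 0}
  add_mem' := by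
    intro a b ha hb j hj
    rw [PiLp.add_apply, ha j hj, hb j hj, add_zero]
  zero_mem' := by intro j _; rfl
  smul_mem' := by
    intro c a ha j hj
    rw [PiLp.smul_apply, ha j hj, smul_zero]

/-- The product `g x` of the orthogonal matrix `g` and the vector `x`. -/
noncomputable def mv {n : ℕ} (g : OG n) (x : EE n) : EE n :=
  WithLp.toLp 2 (g.1.mulVec (WithLp.ofLp x))

/-- The image `g S` of the subspace `S` under the orthogonal matrix `g` (`g S` is a subspace, so it
is its own span). -/
noncomputable def rot {n : ℕ} (g : OG n) (S : Submodule ℝ (EE n)) : Submodule ℝ (EE n) :=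
  Submodule.span ℝ (mv g '' S)

/-- The Lebesgue measure of the Euclidean space `V` (the cube on an orthonormal basis has
measure `1`). -/
noncomputable def leb (V : Type) [NormedAddCommGroup V] [InnerProductSpace ℝ V]
    [FiniteDimensional ℝ V] [MeasurableSpace V] [BorelSpace V] : Measure V :=
  (stdOrthonormalBasis ℝ V).toBasis.addHaar

/-- The orthogonal projection of the point `x` onto the subspace `S`. -/
noncomputable def projPt {V : Type} [NormedAddCommGroup V] [InnerProductSpace ℝ V]
    (S : Submodule ℝ V) [S.HasOrthogonalProjection] (x : V) : S :=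
  S.orthogonalProjectionOnto x

/-- `λ(E | S)`: the Lebesgue measure, in the Euclidean space `S`, of the orthogonal projection of
the set `E` onto `S`. -/
noncomputable def projVol {V : Type} [NormedAddCommGroup V] [InnerProductSpace ℝ V]
    [FiniteDimensional ℝ V] [MeasurableSpace V] [BorelSpace V] (S : Submodule ℝ V) (E : Set V) :
    ℝ≥0∞ :=
  leb S (projPt S '' E)

/-- The harmonic mean `M₋₁(v_{i,E})` of the projection function of `E`: the invariant probability
measure of the Grassmannian `G(n, i)` is the image of the Haar probability measure `muO n` of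
`O(n)` under `g ↦ g S₀`. -/
noncomputable def harmonicMean (n i : ℕ) (E : Set (EuclideanSpace ℝ (Fin n))) : ℝ≥0∞ :=
  (∫⁻ g, (projVol (rot g (coordSub n i)) E)⁻¹ ∂(muO n))⁻¹

/-- The volume `κ_k` of the unit ball of `ℝᵏ`. -/
noncomputable def kappa (k : ℕ) : ℝ≥0∞ := volume (Metric.ball (0 : EuclideanSpace ℝ (Fin k)) 1)

/-- The inequality of the problem, with the constant `c`, holds for every Borel set `E`. -/
def Holds (n i : ℕ) (c : ℝ) : Prop :=
  ∀ E : Set (EuclideanSpace ℝ (Fin n)), MeasurableSet E →
    kappa n ^ (((n : ℝ) - i) / n) * volume E ^ ((i : ℝ) / n) ≤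
      ENNReal.ofReal c * kappa n / kappa i * harmonicMean n i E

end Pool.Agent.Results.MP_6f559f_gt.ProjConst
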