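import Mathlib
import Pool.Agent.H68.C15Flag
import Pool.Agent.H77.MV.ProjConstDefs

/-!
# The optimal constant in the harmonic mean projection inequality

`Q1` of `MP_6f559f_gt`: `c(n, i) = 1` for all `1 ≤ i ≤ n - 1`.
-/

open MeasureTheory Set
open scoped ENNReal RealInnerProductSpace

namespace Pool.Agent.Results.MP_6f559f_gt.ProjConst

open Pool.Agent.H68.Cap

/-! ### Statement -/

/-! ### Proof -/

theorem rot_eq {n i : ℕ} (g : OG n) (w : EE n) :
    w ∈ rot g (coordSub n i) ↔ ∃ u ∈ coordSub n i, actE n g u = w := by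
  have h1 : mv g = ⇑(actE n g).toLinearEquiv.toLinearMap := by
    funext x
    change mv g x = actE n g x
    rw [actE_apply]; rfl
  unfold rot
  rw [h1, Submodule.span_image, Submodule.span_eq, Submodule.mem_map]
  rfl

/-- The inclusion of the first coordinates. -/
noncomputable def inc {n i : ℕ} (y : EE i) : EE n :=
  WithLp.toLp 2 (fun j => if h : (j : ℕ) < i then y ⟨j, h⟩ else 0)

theorem inc_mem {n i : ℕ} (y : EE i) : (inc y : EE n) ∈ coordSub n i := by
  intro j hj
  change (if h : (j : ℕ) < i then y ⟨j, h⟩ else 0) = 0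
  rw [dif_neg (by omega)]

theorem pr_inc {n i : ℕ} (h : i ≤ n) (y : EE i) : pr h (inc y : EE n) = y := by
  ext j
  change (if h' : ((Fin.castLE h j : Fin n) : ℕ) < i then y ⟨Fin.castLE h j, h'⟩ else 0) = y j
  rw [dif_pos (by simp)]
  rfl

theorem inc_pr {n i : ℕ} (h : i ≤ n) {u : EE n} (hu : u ∈ coordSub n i) : inc (pr h u) = u := by
  ext j
  change (if h' : (j : ℕ) < i then (pr h u) ⟨j, h'⟩ else 0) = u j
  split_ifs with h'
  · rfl
  · exact (hu j (by omega)).symm

theorem inner_inc {n i : ℕ} (h : i ≤ n) (y : EE i) (x : EE n) : ⟪(inc y : EE n), x⟫ = ⟪y, pr h x⟫ := by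
  have e : ∀ j : Fin n, j ∉ Finset.univ.map (Fin.castLEEmb h) → ⟪(inc y : EE n) j, x j⟫ = 0 := by
    intro j hj
    have hj2 : ¬ (j : ℕ) < i := by
      intro hlt
      apply hj
      rw [Finset.mem_map]
      exact ⟨⟨j, hlt⟩, Finset.mem_univ _, by ext; simp⟩
    have : (inc y : EE n) j = 0 := dif_neg hj2
    rw [this, inner_zero_left]
  rw [PiLp.inner_apply, PiLp.inner_apply, ← Finset.sum_subset (Finset.subset_univ _) (fun j _ => e j),
    Finset.sum_map]
  apply Finset.sum_congr rfl
  intro k _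
  have h1 : (inc y : EE n) (Fin.castLEEmb h k) = y k := by
    have := congrArg (fun z : EE i => z k) (pr_inc h y)
    exact this
  rw [h1]
  rfl

theorem norm_inc {n i : ℕ} (h : i ≤ n) (y : EE i) : ‖(inc y : EE n)‖ = ‖y‖ := by
  have := inner_inc h y (inc y : EE n)
  rw [pr_inc, real_inner_self_eq_norm_sq, real_inner_self_eq_norm_sq] at this
  exact (sq_eq_sq₀ (norm_nonneg _) (norm_nonneg _)).mp this

/-- The parametrization of `g S₀`. -/
noncomputable def par {n i : ℕ} (h : i ≤ n) (g : OG n) : EE i ≃ₗᵢ[ℝ] rot g (coordSub n i) where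
  toFun y := ⟨actE n g (inc y), (rot_eq g _).mpr ⟨inc y, inc_mem y, rfl⟩⟩
  invFun w := pr h (actE n g⁻¹ w)
  map_add' a b := by
    ext1
    change actE n g (inc (a + b)) = actE n g (inc a) + actE n g (inc b)
    rw [← map_add]
    congr 1
    ext j
    change (if h : (j : ℕ) < i then (a + b) ⟨j, h⟩ else 0) =
      (if h : (j : ℕ) < i then a ⟨j, h⟩ else 0) + (if h : (j : ℕ) < i then b ⟨j, h⟩ else 0)
    split_ifs
    · rfl
    · simp
  map_smul' c a := by
    ext1
    change actE n g (inc (c • a)) = c • actE n g (inc a)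
    rw [← map_smul]
    congr 1
    ext j
    change (if h : (j : ℕ) < i then (c • a) ⟨j, h⟩ else 0) =
      c • (if h : (j : ℕ) < i then a ⟨j, h⟩ else 0)
    split_ifs
    · rfl
    · simp
  left_inv y := by
    change pr h (actE n g⁻¹ (actE n g (inc y))) = y
    rw [act_inv, LinearIsometryEquiv.symm_apply_apply, pr_inc]
  right_inv w := by
    ext1
    change actE n g (inc (pr h (actE n g⁻¹ w))) = w
    obtain ⟨u, hu, hw⟩ := (rot_eq g _).mp w.2
    rw [← hw, act_inv, LinearIsometryEquiv.symm_apply_apply, inc_pr h hu]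
  norm_map' y := by
    change ‖actE n g (inc y)‖ = ‖y‖
    rw [LinearIsometryEquiv.norm_map, norm_inc h]

theorem par_apply {n i : ℕ} (h : i ≤ n) (g : OG n) (y : EE i) :
    (par h g y : EE n) = actE n g (inc y) := rfl

theorem proj_eq {n i : ℕ} (h : i ≤ n) (g : OG n) (x : EE n) :
    (rot g (coordSub n i)).orthogonalProjectionOnto x = par h g (QQ h g x) := by
  apply Subtype.ext
  rw [← Submodule.starProjection_apply]
  apply Submodule.eq_starProjection_of_mem_of_inner_eq_zero
  · exact (par h g (QQ h g x)).2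
  · intro w hw
    obtain ⟨u, hu, rfl⟩ := (rot_eq g w).mp hw
    have hx : x = actE n g (actE n g⁻¹ x) := by rw [act_inv, LinearIsometryEquiv.apply_symm_apply]
    rw [par_apply]
    nth_rewrite 1 [hx]
    rw [← map_sub, LinearIsometryEquiv.inner_map_map]
    unfold QQ
    set z := actE n g⁻¹ x
    rw [inner_sub_left, inner_inc h, ← inc_pr h hu, real_inner_comm (inc (pr h u) : EE n) z,
      inner_inc h, pr_inc, real_inner_comm, sub_self]

theorem projVol_eq {n i : ℕ} (h : i ≤ n) (g : OG n) (E : Set (EE n)) :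
    projVol (rot g (coordSub n i)) E = volume (QQ h g '' E) := by
  have e1 : projPt (rot g (coordSub n i)) '' E = (par h g) '' (QQ h g '' E) := by
    rw [image_image]
    apply image_congr
    intro x _
    exact proj_eq h g x
  unfold projVol leb
  rw [e1, OrthonormalBasis.addHaar_eq_volume, LinearIsometryEquiv.image_eq_preimage_symm]
  exact MeasurePreserving.measure_preimage_equiv (f := (par h g).symm.toMeasurableEquiv)
    (par h g).symm.measurePreserving _

theorem kappa_eq (k : ℕ) : kappa k = kap k := rfl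

theorem harmonicMean_eq {n i : ℕ} (h : i ≤ n) (E : Set (EE n)) :
    harmonicMean n i E = (∫⁻ g, (volume (QQ h g '' E))⁻¹ ∂(muO n))⁻¹ := by
  unfold harmonicMean
  simp only [projVol_eq h]

theorem compact_bound {n i : ℕ} (hi : 1 ≤ i) (h : i ≤ n) {E K : Set (EE n)} (hK : IsCompact K)
    (hKE : K ⊆ E) :
    kappa n ^ (((n : ℝ) - i) / n) * volume K ^ ((i : ℝ) / n) ≤
      kappa n / kappa i * harmonicMean n i E := by
  have hn : 1 ≤ n := hi.trans h
  have hn0 : (0 : ℝ) < n := by positivity
  have hi0 : (0 : ℝ) < i := by positivity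
  have k0 := kap_ne_zero n
  have kt := kap_ne_top n
  have i0 := kap_ne_zero i
  have it := kap_ne_top i
  rw [harmonicMean_eq h, kappa_eq, kappa_eq]
  by_cases hv : volume K = 0
  · rw [hv, ENNReal.zero_rpow_of_pos (by positivity), mul_zero]
    exact zero_le
  have hne : K.Nonempty := by
    rw [nonempty_iff_ne_empty]
    rintro rfl
    simp at hv
  obtain ⟨R, hR, hRv⟩ := exists_radius hn hv hK.measure_lt_top.ne
  have hf := flag hi n h K hK hne R hR hRv.le
  have h1 : ∫⁻ g, (volume (QQ h g '' E))⁻¹ ∂(muO n) ≤ (volume (Metric.ball (0 : EE i) R))⁻¹ :=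
    (lintegral_mono fun g => ENNReal.inv_le_inv.mpr (measure_mono (image_mono hKE))).trans hf
  have h2 : volume (Metric.ball (0 : EE i) R) ≤ (∫⁻ g, (volume (QQ h g '' E))⁻¹ ∂(muO n))⁻¹ :=
    ENNReal.le_inv_iff_le_inv.mp h1
  rw [radial_rel (i := i) hn hR, hRv] at h2
  calc kap n ^ (((n : ℝ) - i) / n) * volume K ^ ((i : ℝ) / n)
      = kap n / kap i * (kap i * (volume K / kap n) ^ ((i : ℝ) / n)) := by
        have e1 : (volume K / kap n) ^ ((i : ℝ) / n) =
            volume K ^ ((i : ℝ) / n) * kap n ^ (-((i : ℝ) / n)) := by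
          rw [ENNReal.div_eq_inv_mul, ENNReal.mul_rpow_of_nonneg _ _ (by positivity),
            ENNReal.rpow_neg, ENNReal.inv_rpow, mul_comm]
        have e2 : kap n ^ (((n : ℝ) - i) / n) = kap n * kap n ^ (-((i : ℝ) / n)) := by
          nth_rewrite 2 [← ENNReal.rpow_one (kap n)]
          rw [← ENNReal.rpow_add _ _ k0 kt]
          congr 1
          field_simp
          ring
        rw [e1, e2, ← mul_assoc, ENNReal.div_mul_cancel i0 it]
        ring
    _ ≤ _ := by gcongr

theorem holds_one {n i : ℕ} (hi : 1 ≤ i) (h : i ≤ n) : Holds n i 1 := by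
  intro E hE
  have hn : 1 ≤ n := hi.trans h
  have hn0 : (0 : ℝ) < n := by positivity
  have hi0 : (0 : ℝ) < i := by positivity
  rw [ENNReal.ofReal_one, one_mul]
  set X := kappa n / kappa i * harmonicMean n i E with hX
  set A := kappa n ^ (((n : ℝ) - i) / n) with hA
  have hA0 : A ≠ 0 := by
    rw [hA]
    exact (ENNReal.rpow_pos (pos_iff_ne_zero.mpr (kap_ne_zero n)) (kap_ne_top n)).ne'
  have hAt : A ≠ ∞ := by
    rw [hA]
    exact ENNReal.rpow_ne_top_of_ne_zero (kap_ne_zero n) (kap_ne_top n)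
  have hle : volume E ≤ (X / A) ^ ((n : ℝ) / i) := by
    rw [hE.measure_eq_iSup_isCompact]
    apply iSup_le
    intro K
    apply iSup_le
    intro hKE
    apply iSup_le
    intro hK
    have h1 := compact_bound hi h hK hKE
    rw [← hX, ← hA] at h1
    have h2 : volume K ^ ((i : ℝ) / n) ≤ X / A := by
      rw [ENNReal.le_div_iff_mul_le (Or.inl hA0) (Or.inl hAt), mul_comm]
      exact h1
    have h3 := ENNReal.rpow_le_rpow h2 (show (0 : ℝ) ≤ (n : ℝ) / i by positivity)
    rwa [← ENNReal.rpow_mul, show (i : ℝ) / n * (n / i) = 1 by field_simp, ENNReal.rpow_one] at h3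
  have h4 := ENNReal.rpow_le_rpow hle (show (0 : ℝ) ≤ (i : ℝ) / n by positivity)
  rw [← ENNReal.rpow_mul, show (n : ℝ) / i * (i / n) = 1 by field_simp, ENNReal.rpow_one,
    ENNReal.le_div_iff_mul_le (Or.inl hA0) (Or.inl hAt)] at h4
  rwa [mul_comm] at h4

theorem image_ball {n i : ℕ} (h : i ≤ n) (g : OG n) :
    QQ h g '' (Metric.ball (0 : EE n) 1) = Metric.ball (0 : EE i) 1 := by
  ext y
  simp only [mem_image, mem_ball_zero_iff]
  constructor
  · rintro ⟨x, hx, rfl⟩
    unfold QQ
    set z := actE n g⁻¹ x with hz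
    have hz1 : ‖z‖ = ‖x‖ := by rw [hz, LinearIsometryEquiv.norm_map]
    have h1 := inner_inc h (pr h z) z
    rw [real_inner_self_eq_norm_sq] at h1
    have h2 := real_inner_le_norm (inc (pr h z) : EE n) z
    rw [norm_inc h, h1] at h2
    have h3 : ‖pr h z‖ ≤ ‖z‖ := by
      by_contra hcon
      rw [not_le] at hcon
      nlinarith [norm_nonneg z, norm_nonneg (pr h z)]
    linarith
  · intro hy
    refine ⟨actE n g (inc y), ?_, ?_⟩
    · rwa [LinearIsometryEquiv.norm_map, norm_inc h]
    · unfold QQ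
      rw [act_inv, LinearIsometryEquiv.symm_apply_apply, pr_inc]

/-- The optimal constant `c(n, i)` is `1` for all `1 ≤ i ≤ n - 1`. -/
theorem result_proof (n i : ℕ) (hi : 1 ≤ i) (hin : i ≤ n - 1) :
    IsLeast {c : ℝ | 0 ≤ c ∧ Holds n i c} 1 := by
  have h : i ≤ n := hin.trans (Nat.sub_le n 1)
  have hn : 1 ≤ n := hi.trans h
  have hn0 : (0 : ℝ) < n := by positivity
  refine ⟨⟨zero_le_one, holds_one hi h⟩, ?_⟩
  rintro c ⟨hc0, hc⟩
  have k0 := kap_ne_zero n
  have kt := kap_ne_top n
  have i0 := kap_ne_zero i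
  have it := kap_ne_top i
  have h1 := hc (Metric.ball 0 1) Metric.isOpen_ball.measurableSet
  have e1 : volume (Metric.ball (0 : EuclideanSpace ℝ (Fin n)) 1) = kap n := rfl
  have e2 : harmonicMean n i (Metric.ball 0 1) = kap i := by
    rw [harmonicMean_eq h]
    simp only [image_ball h]
    rw [lintegral_const, measure_univ, mul_one, inv_inv]
    rfl
  rw [e1, e2, kappa_eq, kappa_eq, ENNReal.div_mul_cancel i0 it, ← ENNReal.rpow_add _ _ k0 kt,
    ← add_div, sub_add_cancel, div_self hn0.ne', ENNReal.rpow_one] at h1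
  nth_rewrite 1 [← one_mul (kap n)] at h1
  rw [ENNReal.mul_le_mul_iff_left k0 kt, ← ENNReal.ofReal_one,
    ENNReal.ofReal_le_ofReal_iff hc0] at h1
  exact h1

end Pool.Agent.Results.MP_6f559f_gt.ProjConst
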