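import Mathlib

/-! Definitions used by the statement of `MP_f3891b_al` `SubrackPair` (moved word for word out of the hand-in). -/

namespace Pool.Agent.Results.MP_f3891b_al.SubrackPair

/-- `S` is a subrack of the conjugation rack of the group `G`. -/
def IsSubrack {G : Type*} [Group G] (S : Set G) : Prop :=
  ∀ x ∈ S, ∀ y ∈ S, x * y * x⁻¹ ∈ S

/-- The subrack lattice of the conjugation rack of `G`: all subracks, ordered by inclusion. -/
abbrev SubrackLattice (G : Type*) [Group G] := {S : Set G // IsSubrack S}

end Pool.Agent.Results.MP_f3891b_al.SubrackPair
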