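import Mathlib
import Pool.Agent.H77.MV.SubrackPairDefs

/-!
MP_f3891b_al: finite groups with isomorphic subrack lattices and non-isomorphic conjugation racks.

The groups are the two semidirect products of `ZMod 91` by `ZMod 3` in which the generator of
`ZMod 3` acts as multiplication by `16` (that is `(2, 3)` on `ZMod 7 × ZMod 13`), respectively by
`9` (that is `(2, 9)`).
-/

namespace Pool.Agent.Results.MP_f3891b_al.SubrackPair

/-- the underlying set of the semidirect products -/
structure Gp (b : Bool) where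
  /-- component in the normal subgroup -/
  v : ZMod 91
  /-- component in the quotient -/
  i : ZMod 3

@[ext] lemma Gp.ext' {b : Bool} {x y : Gp b} (h1 : x.v = y.v) (h2 : x.i = y.i) : x = y := by
  cases x; cases y; simp_all

/-- the action of `ZMod 3` -/
def chi (b : Bool) (i : ZMod 3) : ZMod 91 := (bif b then 16 else 9) ^ i.val

lemma chi_add : ∀ (b : Bool) (i j : ZMod 3), chi b (i + j) = chi b i * chi b j := by decide

lemma chi_zero : ∀ b : Bool, chi b 0 = 1 := by decide

instance (b : Bool) : Mul (Gp b) := ⟨fun x y => ⟨x.v + chi b x.i * y.v, x.i + y.i⟩⟩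
instance (b : Bool) : One (Gp b) := ⟨⟨0, 0⟩⟩
instance (b : Bool) : Inv (Gp b) := ⟨fun x => ⟨-(chi b (-x.i) * x.v), -x.i⟩⟩

lemma mul_v {b : Bool} (x y : Gp b) : (x * y).v = x.v + chi b x.i * y.v := rfl
lemma mul_i {b : Bool} (x y : Gp b) : (x * y).i = x.i + y.i := rfl
lemma one_v {b : Bool} : (1 : Gp b).v = 0 := rfl
lemma one_i {b : Bool} : (1 : Gp b).i = 0 := rfl
lemma inv_v {b : Bool} (x : Gp b) : (x⁻¹).v = -(chi b (-x.i) * x.v) := rfl
lemma inv_i {b : Bool} (x : Gp b) : (x⁻¹).i = -x.i := rfl

instance (b : Bool) : Group (Gp b) := Group.ofLeftAxioms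
  (by
    intro x y z
    ext
    · simp only [mul_v, mul_i, chi_add]; ring
    · simp only [mul_i]; ring)
  (by
    intro x
    ext
    · simp only [mul_v, one_v, one_i, chi_zero]; ring
    · simp only [mul_i, one_i]; ring)
  (by
    intro x
    ext
    · simp only [mul_v, inv_v, inv_i, one_v]; ring
    · simp only [mul_i, inv_i, one_i]; ring)

lemma chi_neg (b : Bool) (i : ZMod 3) : chi b i * chi b (-i) = 1 := by
  rw [← chi_add, add_neg_cancel, chi_zero]

lemma conj_eq {b : Bool} (x y : Gp b) :
    x * y * x⁻¹ = ⟨x.v + chi b x.i * y.v - chi b y.i * x.v, y.i⟩ := by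
  have h := chi_neg b x.i
  ext
  · simp only [mul_v, mul_i, inv_v, chi_add]
    linear_combination (-(chi b y.i) * x.v) * h
  · simp only [mul_i, inv_i]; ring

/-- inverse of `1 - chi b i` for `i ≠ 0` -/
def inv1 (b : Bool) (i : ZMod 3) : ZMod 91 := (1 - chi b i) ^ 11

lemma inv1_mul : ∀ (b : Bool) (i : ZMod 3), i ≠ 0 → inv1 b i * (1 - chi b i) = 1 := by decide

lemma pow12 : ∀ (b : Bool) (i : ZMod 3), i ≠ 0 → (1 - chi b i) ^ 12 = 1 := by decide

/-- closure of a set under an affine quandle operation -/
lemma add_closed {b : Bool} {i : ZMod 3} (hi : i ≠ 0) {P : Set (ZMod 91)} (h0 : (0 : ZMod 91) ∈ P)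
    (hP : ∀ a ∈ P, ∀ c ∈ P, (1 - chi b i) * a + chi b i * c ∈ P) :
    ∀ a ∈ P, ∀ c ∈ P, a + c ∈ P := by
  have h1 : ∀ k : ℕ, ∀ a ∈ P, (1 - chi b i) ^ k * a ∈ P := by
    intro k
    induction k with
    | zero => intro a ha; simpa using ha
    | succ k ih =>
      intro a ha
      have := hP _ (ih a ha) 0 h0
      rw [mul_zero, add_zero, ← mul_assoc, ← pow_succ'] at this
      exact this
  have h2 : ∀ a ∈ P, chi b (-i) * a ∈ P := by
    intro a ha
    have e : ∀ c ∈ P, chi b i * c ∈ P := by
      intro c hc
      have := hP 0 h0 c hc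
      rwa [mul_zero, zero_add] at this
    have h3 := e _ (e a ha)
    have h4 : ∀ (b : Bool) (i : ZMod 3), chi b i * chi b i = chi b (-i) := by decide
    rwa [← mul_assoc, h4] at h3
  intro a ha c hc
  have h5 := hP _ (h1 11 a ha) _ (h2 c hc)
  rw [← mul_assoc, ← mul_assoc, ← pow_succ', pow12 b i hi, chi_neg, one_mul, one_mul] at h5
  exact h5

lemma univ_closed {b : Bool} {i : ZMod 3} (hi : i ≠ 0) {P : Set (ZMod 91)}
    (h0 : (0 : ZMod 91) ∈ P)
    (hP : ∀ a ∈ P, ∀ c ∈ P, (1 - chi b i) * a + chi b i * c ∈ P)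
    (g g' : ZMod 91) (hg : g ∈ P) (hgg : g' * g = 1) (a : ZMod 91) : a ∈ P := by
  have h1 : ∀ k : ℕ, (k : ZMod 91) * g ∈ P := by
    intro k
    induction k with
    | zero => simpa using h0
    | succ k ih =>
      have := add_closed hi h0 hP _ ih _ hg
      rw [Nat.cast_succ, add_mul, one_mul]
      exact this
  have h2 := h1 (a * g').val
  rw [ZMod.natCast_zmod_val, mul_assoc, hgg, mul_one] at h2
  exact h2

/-- the map between the two groups -/
def F (b b' : Bool) (κ : ZMod 91 → ZMod 91) (x : Gp b) : Gp b' :=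
  if x.i = 0 then ⟨κ x.v * x.v, 0⟩ else ⟨(1 - chi b' x.i) * (inv1 b x.i * x.v), x.i⟩

lemma F_zero {b b' : Bool} {κ : ZMod 91 → ZMod 91} (v : ZMod 91) :
    F b b' κ ⟨v, 0⟩ = ⟨κ v * v, 0⟩ := by simp [F]

lemma F_ne {b b' : Bool} {κ : ZMod 91 → ZMod 91} (v : ZMod 91) {i : ZMod 3} (hi : i ≠ 0) :
    F b b' κ ⟨v, i⟩ = ⟨(1 - chi b' i) * (inv1 b i * v), i⟩ := by simp [F, hi]

theorem F_image {b b' : Bool} {κ : ZMod 91 → ZMod 91}
    (hκ : ∀ (v : ZMod 91) (i : ZMod 3),
      κ (chi b i * v) * (chi b i * v) = chi b' i * (κ v * v))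
    {S : Set (Gp b)} (hS : IsSubrack S) : IsSubrack (F b b' κ '' S) := by
  rintro _ ⟨⟨v, i⟩, hx, rfl⟩ _ ⟨⟨w, j⟩, hy, rfl⟩
  by_cases hi : i = 0
  · subst hi
    rw [F_zero]
    by_cases hj : j = 0
    · subst hj
      refine ⟨⟨w, 0⟩, hy, ?_⟩
      rw [F_zero, conj_eq]
      ext
      · simp only [chi_zero]; ring
      · rfl
    · -- translations
      have h1 : ∀ k : ℕ, (⟨(k : ZMod 91) * ((1 - chi b j) * v) + w, j⟩ : Gp b) ∈ S := by
        intro k
        induction k with
        | zero => simpa using hy
        | succ k ih =>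
          have := hS _ hx _ ih
          rw [conj_eq] at this
          convert this using 1
          ext
          · simp only [chi_zero, Nat.cast_succ]; ring
          · rfl
      have h2 := h1 (κ v).val
      rw [ZMod.natCast_zmod_val] at h2
      refine ⟨_, h2, ?_⟩
      rw [F_ne _ hj, F_ne _ hj, conj_eq]
      have h3 := inv1_mul b j hj
      ext
      · simp only [chi_zero]
        linear_combination ((1 - chi b' j) * κ v * v) * h3
      · rfl
  · by_cases hj : j = 0
    · subst hj
      refine ⟨_, hS _ hx _ hy, ?_⟩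
      rw [conj_eq, conj_eq, F_zero, F_ne _ hi]
      simp only [chi_zero]
      have h1 : v + chi b i * w - 1 * v = chi b i * w := by ring
      rw [h1, F_zero, hκ]
      ext
      · simp only [chi_zero]; ring
      · rfl
    · -- rotations
      have hvi := inv1_mul b i hi
      have hvj := inv1_mul b j hj
      obtain ⟨v', hv'⟩ : ∃ v', v = (1 - chi b i) * v' :=
        ⟨inv1 b i * v, by linear_combination (-v) * hvi⟩
      obtain ⟨w', hw'⟩ : ∃ w', w = (1 - chi b j) * w' :=
        ⟨inv1 b j * w, by linear_combination (-w) * hvj⟩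
      let P : ZMod 3 → Set (ZMod 91) := fun k =>
        {a | (⟨(1 - chi b k) * (v' + a * (w' - v')), k⟩ : Gp b) ∈ S}
      have hP : ∀ k l, ∀ a ∈ P k, ∀ c ∈ P l, (1 - chi b k) * a + chi b k * c ∈ P l := by
        intro k l a ha c hc
        have := hS _ ha _ hc
        rw [conj_eq] at this
        change (⟨_, l⟩ : Gp b) ∈ S
        convert this using 1
        ext
        · simp only []; ring
        · rfl
      have h0 : (0 : ZMod 91) ∈ P i := by
        change (⟨_, i⟩ : Gp b) ∈ S
        convert hx using 1
        ext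
        · simp only [hv']; ring
        · rfl
      have h1 : (1 : ZMod 91) ∈ P j := by
        change (⟨_, j⟩ : Gp b) ∈ S
        convert hy using 1
        ext
        · simp only [hw']; ring
        · rfl
      have h2 : (1 - chi b j) ∈ P i := by
        have := hP j i 1 h1 0 h0
        rwa [mul_one, mul_zero, add_zero] at this
      have h3 : ∀ a, a ∈ P i := univ_closed hi h0 (hP i i) _ _ h2 hvj
      have h4 : ∀ a, a ∈ P j := by
        intro a
        have := hP i j (inv1 b i * (a - chi b i)) (h3 _) 1 h1
        convert this using 1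
        linear_combination (-(a - chi b i)) * hvi
      refine ⟨_, h4 (chi b' i), ?_⟩
      rw [F_ne _ hj, F_ne _ hj, F_ne _ hi, conj_eq]
      ext
      · simp only [hv', hw']
        linear_combination ((1 - chi b' j) * (v' + chi b' i * (w' - v')) -
          chi b' i * (1 - chi b' j) * w') * hvj - ((1 - chi b' i) * v' -
          chi b' j * (1 - chi b' i) * v') * hvi
      · rfl

/-- discrete logarithm tables -/
def tab (b : Bool) (v : ZMod 91) : ℕ :=
  if v.val % 7 = 0 then
    (if b then [0, 0, 0, 1, 0, 2, 1, 0, 1, 2, 2, 2, 1].getD (v.val % 13) 0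
      else [0, 0, 0, 2, 0, 1, 2, 0, 2, 1, 1, 1, 2].getD (v.val % 13) 0)
  else [0, 0, 1, 0, 2, 2, 1].getD (v.val % 7) 0

/-- the multiplier on the normal subgroup -/
def kap (b : Bool) (v : ZMod 91) : ZMod 91 := (bif b then 29 else 22) ^ (tab b v)

set_option maxRecDepth 100000 in
lemma hkap_true : ∀ (v : ZMod 91) (i : ZMod 3),
    kap true (chi true i * v) * (chi true i * v) = chi false i * (kap true v * v) := by decide

set_option maxRecDepth 100000 in
lemma hkap_false : ∀ (v : ZMod 91) (i : ZMod 3),
    kap false (chi false i * v) * (chi false i * v) = chi true i * (kap false v * v) := by decide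

set_option maxRecDepth 100000 in
lemma kap_inv1 : ∀ v : ZMod 91, kap false (kap true v * v) * (kap true v * v) = v := by decide

set_option maxRecDepth 100000 in
lemma kap_inv2 : ∀ v : ZMod 91, kap true (kap false v * v) * (kap false v * v) = v := by decide

lemma F_inv {b b' : Bool} {κ κ' : ZMod 91 → ZMod 91}
    (h : ∀ v, κ' (κ v * v) * (κ v * v) = v) (x : Gp b) :
    F b' b κ' (F b b' κ x) = x := by
  obtain ⟨v, i⟩ := x
  by_cases hi : i = 0
  · subst hi
    rw [F_zero, F_zero, h]
  · rw [F_ne _ hi, F_ne _ hi]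
    have h1 := inv1_mul b i hi
    have h2 := inv1_mul b' i hi
    ext
    · simp only []
      linear_combination (1 - chi b i) * inv1 b i * v * h2 + v * h1
    · rfl

/-- the bijection -/
def e : Gp true ≃ Gp false where
  toFun := F true false (kap true)
  invFun := F false true (kap false)
  left_inv := F_inv kap_inv1
  right_inv := F_inv kap_inv2

/-- the isomorphism of subrack lattices -/
def latticeIso : SubrackLattice (Gp true) ≃o SubrackLattice (Gp false) where
  toFun S := ⟨e '' S.1, F_image hkap_true S.2⟩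
  invFun S := ⟨e.symm '' S.1, F_image hkap_false S.2⟩
  left_inv S := Subtype.ext (e.symm_image_image S.1)
  right_inv S := Subtype.ext (e.image_symm_image S.1)
  map_rel_iff' := by
    intro S T
    exact Set.image_subset_image_iff e.injective

/-- the points of the conjugacy class of a generator -/
def t (a : ZMod 91) : Gp true := ⟨(1 - chi true 1) * a, 1⟩

theorem not_iso : ¬ ∃ f : Gp true ≃ Gp false, ∀ x y, f (x * y * x⁻¹) = f x * f y * (f x)⁻¹ := by
  rintro ⟨f, hf⟩
  have ht : ∀ a c, t a * t c * (t a)⁻¹ = t ((1 - chi true 1) * a + chi true 1 * c) := by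
    intro a c
    rw [conj_eq]
    ext
    · simp only [t]; ring
    · rfl
  have hi : ∀ a, (f (t a)).i = (f (t 0)).i := by
    intro a
    have h1 : t a = (⟨a, 0⟩ : Gp true) * t 0 * (⟨a, 0⟩ : Gp true)⁻¹ := by
      rw [conj_eq]
      ext
      · simp only [t, chi_zero]; ring
      · rfl
    rw [h1, hf, conj_eq]
  set j := (f (t 0)).i with hj
  have hj0 : j ≠ 0 := by
    intro h0
    have h1 := hf (t 0) (t 1)
    have h2 : f (t 0) * f (t 1) * (f (t 0))⁻¹ = f (t 1) := by
      rw [conj_eq]
      ext
      · simp only [hi, h0, chi_zero]; ring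
      · rfl
    rw [h2] at h1
    have h3 := f.injective h1
    rw [ht] at h3
    have h4 := congrArg Gp.v h3
    revert h4
    simp only [t]
    decide
  let h : ZMod 91 → ZMod 91 := fun a => inv1 false j * ((f (t a)).v - (f (t 0)).v)
  have hh : ∀ a, (f (t a)).v = (1 - chi false j) * h a + (f (t 0)).v := by
    intro a
    have h1 := inv1_mul false j hj0
    simp only [h]
    linear_combination (-((f (t a)).v - (f (t 0)).v)) * h1
  have h0 : h 0 = 0 := by simp [h]
  have hinj : ∀ a, h a = 0 → a = 0 := by
    intro a ha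
    have h1 := hh a
    rw [ha, mul_zero, zero_add] at h1
    have h2 : f (t a) = f (t 0) := Gp.ext' h1 (hi a)
    have h3 := congrArg Gp.v (f.injective h2)
    simp only [t, mul_zero] at h3
    have h4 := inv1_mul true 1 (by decide)
    linear_combination (inv1 true 1) * h3 - a * h4
  have hop : ∀ a c, h ((1 - chi true 1) * a + chi true 1 * c) =
      (1 - chi false j) * h a + chi false j * h c := by
    intro a c
    have h1 := congrArg Gp.v (hf (t a) (t c))
    rw [ht, conj_eq] at h1
    change (f (t ((1 - chi true 1) * a + chi true 1 * c))).v =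
      (f (t a)).v + chi false (f (t a)).i * (f (t c)).v - chi false (f (t c)).i * (f (t a)).v at h1
    rw [hi a, hi c, hh a, hh c, hh ((1 - chi true 1) * a + chi true 1 * c)] at h1
    have h2 := inv1_mul false j hj0
    linear_combination (inv1 false j) * h1 +
      (-h ((1 - chi true 1) * a + chi true 1 * c) + (1 - chi false j) * h a +
        chi false j * h c) * h2
  have hl : ∀ a, h ((1 - chi true 1) * a) = (1 - chi false j) * h a := by
    intro a
    have := hop a 0
    rwa [mul_zero, add_zero, h0, mul_zero, add_zero] at this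
  have hr : ∀ a, h (chi true 1 * a) = chi false j * h a := by
    intro a
    have := hop 0 a
    rwa [mul_zero, zero_add, h0, mul_zero, zero_add] at this
  have hadd : ∀ a c, h (a + c) = h a + h c := by
    intro a c
    have h1 := inv1_mul true 1 (by decide)
    have h2 := chi_neg true 1
    have h3 : a = (1 - chi true 1) * (inv1 true 1 * a) := by linear_combination (-a) * h1
    have h4 : c = chi true 1 * (chi true (-1) * c) := by linear_combination (-c) * h2
    rw [h3, h4, hop, hl, hr]
  let H : ZMod 91 →+ ZMod 91 := ⟨⟨h, h0⟩, hadd⟩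
  have hk : ∀ k : ℕ, h (k : ZMod 91) = k * h 1 := by
    intro k
    have := map_nsmul H k 1
    rw [nsmul_eq_mul, mul_one, nsmul_eq_mul] at this
    exact this
  have h16 : (16 : ZMod 91) * h 1 = chi false j * h 1 := by
    rw [← hr 1, mul_one]
    have := hk 16
    push_cast at this
    rw [← this]
    rfl
  have hcases : chi false j = 9 ∨ chi false j = 81 := by
    revert hj0
    generalize j = j'
    revert j'
    decide
  rcases hcases with hc | hc
  · rw [hc] at h16
    have h7 := hk 7
    push_cast at h7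
    have h8 : h 7 = 0 := by rw [h7]; linear_combination h16
    have h9 := hinj 7 h8
    exact absurd h9 (by decide)
  · rw [hc] at h16
    have h7 := hk 65
    push_cast at h7
    have h8 : h 65 = 0 := by rw [h7]; linear_combination (-1 : ZMod 91) * h16
    have h9 := hinj 65 h8
    exact absurd h9 (by decide)

instance (b : Bool) : Finite (Gp b) :=
  Finite.of_injective (fun x : Gp b => (x.v, x.i)) (fun x y h => by
    have h1 := Prod.ext_iff.mp h
    exact Gp.ext' h1.1 h1.2)

/-- There are finite groups with isomorphic subrack lattices and non-isomorphic conjugation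
racks. -/
theorem result_proof : ∃ (G H : Type) (_ : Group G) (_ : Group H), Finite G ∧ Finite H ∧
    Nonempty (SubrackLattice G ≃o SubrackLattice H) ∧
    ¬ ∃ f : G ≃ H, ∀ x y : G, f (x * y * x⁻¹) = f x * f y * (f x)⁻¹ :=
  ⟨Gp true, Gp false, inferInstance, inferInstance, inferInstance, inferInstance,
    ⟨latticeIso⟩, not_iso⟩

end Pool.Agent.Results.MP_f3891b_al.SubrackPair
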